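import Pool.Agent.Helper29.CP.Base

/-!
MP_82cbb9_al, CP-9: induced representations.
-/

set_option autoImplicit false

namespace Pool.Agent.CP

open Polynomial

section Induced

variable {F : Type} [Group F] (F1 : Subgroup F) {W : Type} [AddCommGroup W] [Module ℚ W]
  (σ : F1 →* Module.End ℚ W)

/-- the induced module -/
def cp9V : Submodule ℚ (F → W) where
  carrier := {φ | ∀ (h : F1) (x : F), φ (h * x) = σ h (φ x)}
  add_mem' {a b} ha hb := by
    intro h x
    simp only [Pi.add_apply, ha h x, hb h x, map_add]
  zero_mem' := by intro h x; simp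
  smul_mem' c a ha := by
    intro h x
    simp only [Pi.smul_apply, ha h x, map_smul]

theorem mem_cp9V {φ : F → W} : φ ∈ cp9V F1 σ ↔ ∀ (h : F1) (x : F), φ (h * x) = σ h (φ x) :=
  Iff.rfl

/-- the action of `F` by right translation -/
def cp9act : F →* Module.End ℚ (cp9V F1 σ) where
  toFun f :=
    { toFun := fun φ => ⟨fun x => φ.1 (x * f), fun h x => by
        have := φ.2 h (x * f)
        rw [← mul_assoc] at this
        exact this⟩
      map_add' := fun a b => rfl
      map_smul' := fun c a => rfl }
  map_one' := by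
    ext φ x
    change φ.1 (x * 1) = φ.1 x
    rw [mul_one]
  map_mul' f g := by
    ext φ x
    change φ.1 (x * (f * g)) = φ.1 ((x * f) * g)
    rw [mul_assoc]

theorem cp9act_apply (f : F) (φ : cp9V F1 σ) (x : F) : (cp9act F1 σ f φ).1 x = φ.1 (x * f) := rfl

instance cp9V_fin [F1.FiniteIndex] [FiniteDimensional ℚ W] : FiniteDimensional ℚ (cp9V F1 σ) := by
  classical
  -- right cosets through the quotient of the inverse
  let T : F ⧸ F1 → F := fun q => (Quotient.out q)⁻¹
  have : Finite (F ⧸ F1) := Subgroup.finite_quotient_of_finiteIndex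
  let L : cp9V F1 σ →ₗ[ℚ] ((F ⧸ F1) → W) :=
    { toFun := fun φ q => φ.1 (T q)
      map_add' := fun a b => rfl
      map_smul' := fun c a => rfl }
  refine FiniteDimensional.of_injective L ?_
  intro a b hab
  apply Subtype.ext
  funext x
  -- x⁻¹ = out q * h
  let q : F ⧸ F1 := QuotientGroup.mk x⁻¹
  obtain ⟨h, hh⟩ := QuotientGroup.mk_out_eq_mul F1 x⁻¹
  have hx : x = (h : F) * T q := by
    have h1 : (Quotient.out q) = x⁻¹ * h := hh
    change x = (h : F) * (Quotient.out q)⁻¹
    rw [h1]; group
  have h2 : a.1 (T q) = b.1 (T q) := congrFun hab q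
  rw [hx, a.2 h, b.2 h, h2]

theorem cp9_induced [F1.FiniteIndex] [FiniteDimensional ℚ W] [Nontrivial W] :
    ∃ (m : ℕ) (ρ : F →* GL (Fin m) ℚ),
      (∀ f, ρ f = 1 → ∃ h : f ∈ F1, σ ⟨f, h⟩ = 1) ∧
      (∀ (N : Subgroup F) (c : ℕ), N.Normal → N ≤ F1 →
        (∀ l : List F1, l.length = c → (∀ x ∈ l, (x : F) ∈ N) →
          (l.map fun x => σ x - 1).prod = 0) → StrUnip ρ N) := by
  classical
  let b := Module.finBasis ℚ (cp9V F1 σ)
  let e : Module.End ℚ (cp9V F1 σ) ≃ₐ[ℚ] Matrix (Fin _) (Fin _) ℚ := LinearMap.toMatrixAlgEquiv b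
  let ρ : F →* GL (Fin (Module.finrank ℚ (cp9V F1 σ))) ℚ :=
    MonoidHom.toHomUnits (e.toAlgHom.toRingHom.toMonoidHom.comp (cp9act F1 σ))
  have hρ : ∀ f, (ρ f : Matrix (Fin (Module.finrank ℚ (cp9V F1 σ))) (Fin _) ℚ)
      = e (cp9act F1 σ f) := fun f => rfl
  refine ⟨_, ρ, ?_, ?_⟩
  · intro f hf
    have h1 : e (cp9act F1 σ f) = 1 := by rw [← hρ, hf]; rfl
    have h2 : cp9act F1 σ f = 1 := by
      apply e.injective; rw [h1, map_one]
    -- test functions
    let φ : W → cp9V F1 σ := fun v => ⟨fun x => if h : x ∈ F1 then σ ⟨x, h⟩ v else 0, by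
      intro h x
      by_cases hx : x ∈ F1
      · have hhx : (h : F) * x ∈ F1 := F1.mul_mem h.2 hx
        simp only [hx, hhx, dif_pos]
        rw [← Module.End.mul_apply, ← map_mul]
        rfl
      · have hhx : (h : F) * x ∉ F1 := by
          intro hc; apply hx
          have := F1.mul_mem (F1.inv_mem h.2) hc
          simpa using this
        simp only [hx, hhx, dif_neg, not_false_eq_true, map_zero]⟩
    have h3 : ∀ v, (φ v).1 f = v := by
      intro v
      have h4 : (cp9act F1 σ f (φ v)).1 1 = (φ v).1 1 := by rw [h2]; rfl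
      rw [cp9act_apply, one_mul] at h4
      rw [h4]
      change (if h : (1 : F) ∈ F1 then σ ⟨1, h⟩ v else 0) = v
      rw [dif_pos F1.one_mem]
      have : (⟨1, F1.one_mem⟩ : F1) = 1 := rfl
      rw [this, map_one]; rfl
    by_cases hf1 : f ∈ F1
    · refine ⟨hf1, ?_⟩
      ext v
      have := h3 v
      change (if h : f ∈ F1 then σ ⟨f, h⟩ v else 0) = v at this
      rw [dif_pos hf1] at this
      rw [this]; rfl
    · exfalso
      obtain ⟨v, hv⟩ := exists_ne (0 : W)
      have := h3 v
      change (if h : f ∈ F1 then σ ⟨f, h⟩ v else 0) = v at this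
      rw [dif_neg hf1] at this
      exact hv this.symm
  · intro N c hnorm hle hc
    refine ⟨c, ?_⟩
    intro l hl hlN
    have key : ∀ l : List F, (∀ x ∈ l, x ∈ N) → ∀ y : F, ∃ l' : List F1, l'.length = l.length ∧
        (∀ x ∈ l', (x : F) ∈ N) ∧ ∀ φ : cp9V F1 σ,
          ((l.map fun x => cp9act F1 σ x - 1).prod φ).1 y
            = (l'.map fun x => σ x - 1).prod (φ.1 y) := by
      intro l
      induction l with
      | nil =>
        intro _ y
        exact ⟨[], rfl, by simp, fun φ => by simp⟩
      | cons f l ih =>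
        intro hfl y
        obtain ⟨l', h1, h2, h3⟩ := ih (fun x hx => hfl x (List.mem_cons_of_mem _ hx)) y
        have hf : f ∈ N := hfl f List.mem_cons_self
        have hfN : y * f * y⁻¹ ∈ N := hnorm.conj_mem f hf y
        refine ⟨⟨y * f * y⁻¹, hle hfN⟩ :: l', by simp [h1], ?_, ?_⟩
        · intro x hx
          rcases List.mem_cons.1 hx with rfl | hx
          · exact hfN
          · exact h2 x hx
        · intro φ
          rw [List.map_cons, List.map_cons, List.prod_cons, List.prod_cons,
            Module.End.mul_apply, Module.End.mul_apply, ← h3 φ]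
          generalize (l.map fun x => cp9act F1 σ x - 1).prod φ = ψ
          have h6 : ((cp9act F1 σ f - 1) ψ).1 y = ψ.1 (y * f) - ψ.1 y := rfl
          rw [h6]
          have h7 := ψ.2 ⟨y * f * y⁻¹, hle hfN⟩ y
          have h8 : (y * f * y⁻¹) * y = y * f := by group
          change ψ.1 ((y * f * y⁻¹) * y) = _ at h7
          rw [h8] at h7
          rw [h7]; rfl
    have h9 : (l.map fun x => cp9act F1 σ x - 1).prod = 0 := by
      ext φ y
      obtain ⟨l', h1, h2, h3⟩ := key l hlN y
      rw [h3 φ, hc l' (h1.trans hl) h2]; rfl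
    have h10 : (l.map fun x => (ρ x).1 - 1).prod = e (l.map fun x => cp9act F1 σ x - 1).prod := by
      rw [map_list_prod, List.map_map]
      congr 1
      apply List.map_congr_left
      intro x _
      change (ρ x).1 - 1 = e (cp9act F1 σ x - 1)
      rw [hρ, map_sub e, map_one e]
    rw [h10, h9, map_zero]

end Induced

/-- lifting a homomorphism from a free subgroup through a surjection -/
theorem cp9_lift {F1 : Type} [Group F1] [IsFreeGroup F1] {H K : Type} [Group H] [Group K]
    (π : K →* H) (hπ : Function.Surjective π) (g : F1 →* H) :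
    ∃ lam : F1 →* K, ∀ x, π (lam x) = g x := by
  classical
  choose s hs using hπ
  refine ⟨IsFreeGroup.lift (fun a => s (g (IsFreeGroup.of a))), ?_⟩
  have : π.comp (IsFreeGroup.lift (fun a => s (g (IsFreeGroup.of a)))) = g := by
    apply IsFreeGroup.ext_hom
    intro a
    simp [hs]
  intro x
  exact DFunLike.congr_fun this x

theorem cp9_comap {A B : Type} [Group A] [Group B] (f : A →* B) (H : Subgroup B)
    [H.FiniteIndex] : (H.comap f).FiniteIndex := by
  constructor
  rw [Subgroup.index_comap]
  exact (Subgroup.instFiniteIndex_subgroupOf H f.range).index_ne_zero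

/-- CP-9 (induced representations) -/
theorem cover_of_finiteIndex {G : Type} [Group G] [Group.FG G] (G0 : Subgroup G)
    [G0.FiniteIndex] (h : Cover G0) : Cover G := by
  classical
  obtain ⟨d', π', m', ρ', F0', hπ', hker, hfin, c', hc'⟩ := h
  -- a surjection from a free group of finite rank
  obtain ⟨S, hS⟩ := (Group.fg_def.1 (inferInstance : Group.FG G))
  let d := S.card
  let e : Fin d ≃ S := S.equivFin.symm
  let π : FreeGroup (Fin d) →* G := FreeGroup.lift (fun i => (e i : G))
  have hπ : Function.Surjective π := by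
    rw [← MonoidHom.range_eq_top]
    rw [eq_top_iff, ← hS, Subgroup.closure_le]
    intro s hs
    refine ⟨FreeGroup.of (e.symm ⟨s, hs⟩), ?_⟩
    simp [π]
  let F1 : Subgroup (FreeGroup (Fin d)) := G0.comap π
  have hF1 : F1.FiniteIndex := cp9_comap π G0
  have hfree : IsFreeGroup F1 := inferInstance
  let g : F1 →* G0 := (π.comp F1.subtype).codRestrict G0 (fun x => x.2)
  obtain ⟨lam, hlam⟩ := cp9_lift π' hπ' g
  have hlam' : ∀ x : F1, (π' (lam x) : G) = π x := by
    intro x; rw [hlam x]; rfl
  -- the module W
  let W := (Fin m' → ℚ) × ℚ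
  let σ0 : FreeGroup (Fin d') →* Module.End ℚ (Fin m' → ℚ) :=
    (Matrix.toLinAlgEquiv' (R := ℚ) (n := Fin m')).toAlgHom.toRingHom.toMonoidHom.comp
      ((Units.coeHom _).comp ρ')
  have hσ0 : ∀ x, σ0 x = Matrix.toLinAlgEquiv' (ρ' x : Matrix (Fin m') (Fin m') ℚ) := fun x => rfl
  let σ1 : FreeGroup (Fin d') →* Module.End ℚ W :=
    { toFun := fun x => LinearMap.prodMap (σ0 x) LinearMap.id
      map_one' := by
        rw [map_one]
        ext <;> simp
      map_mul' := fun x y => by
        rw [map_mul]
        ext <;> simp }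
  have hσ1 : ∀ x v, σ1 x v = (σ0 x v.1, v.2) := fun x v => rfl
  let σ : F1 →* Module.End ℚ W := σ1.comp lam
  obtain ⟨m, ρ, hρ1, hρ2⟩ := cp9_induced F1 σ
  -- finite index
  let D : Subgroup F1 := F0'.comap lam
  have hD : D.FiniteIndex := cp9_comap lam F0'
  let D1 : Subgroup (FreeGroup (Fin d)) := D.map F1.subtype
  have hD1 : D1.FiniteIndex := by
    constructor
    have h1 := Subgroup.index_map_subtype D
    rw [h1]
    exact Nat.mul_ne_zero hD.index_ne_zero hF1.index_ne_zero
  refine ⟨d, π, m, ρ, D1.normalCore, hπ, ?_, inferInstance, ?_⟩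
  · intro f hf
    obtain ⟨hf1, hf2⟩ := hρ1 f hf
    have h3 : σ0 (lam ⟨f, hf1⟩) = 1 := by
      ext v
      have := LinearMap.congr_fun hf2 (Pi.single v 1, 0)
      have h4 := congrArg Prod.fst this
      change σ0 (lam ⟨f, hf1⟩) (Pi.single v 1) = Pi.single v 1 at h4
      simp [h4]
    have h4 : lam ⟨f, hf1⟩ ∈ ρ'.ker := by
      rw [MonoidHom.mem_ker]
      apply Units.ext
      apply (Matrix.toLinAlgEquiv' (R := ℚ) (n := Fin m')).injective
      rw [← hσ0, h3]
      simp
    have h5 := hker h4
    rw [MonoidHom.mem_ker] at h5 ⊢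
    have h6 := hlam' ⟨f, hf1⟩
    rw [h5] at h6
    exact h6.symm
  · have hle : ⁅D1.normalCore, D1.normalCore⁆ ≤ (⁅D, D⁆).map F1.subtype := by
      rw [Subgroup.map_commutator]
      exact Subgroup.commutator_mono D1.normalCore_le D1.normalCore_le
    apply hρ2 ⁅D1.normalCore, D1.normalCore⁆ (c' + 1) inferInstance
    · exact hle.trans (Subgroup.map_subtype_le _)
    · intro l hl hlN
      have hlam0 : ∀ x : F1, (x : FreeGroup (Fin d)) ∈ ⁅D1.normalCore, D1.normalCore⁆ →
          lam x ∈ ⁅F0', F0'⁆ := by
        intro x hx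
        obtain ⟨w, hw, hw2⟩ := hle hx
        have hwx : w = x := Subtype.ext hw2
        rw [← hwx]
        have h8 : (⁅D, D⁆).map lam ≤ ⁅F0', F0'⁆ := by
          rw [Subgroup.map_commutator]
          exact Subgroup.commutator_mono (Subgroup.map_comap_le _ _) (Subgroup.map_comap_le _ _)
        exact h8 ⟨w, hw, rfl⟩
      have h11 : ∀ (l : List F1) (v : W), (l.map fun x => σ x - 1).prod v
          = ((l.map fun x => σ0 (lam x) - 1).prod v.1, ((l.map fun x => σ x - 1).prod v).2) := by
        intro l
        induction l with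
        | nil => intro v; rfl
        | cons x l ih =>
          intro v
          apply Prod.ext
          · rw [List.map_cons, List.prod_cons, Module.End.mul_apply, ih v, List.map_cons,
              List.prod_cons, Module.End.mul_apply]
            rfl
          · rfl
      cases l with
      | nil => simp at hl
      | cons x l =>
        have hl2 : l.length = c' := by simpa using hl
        have h12 := hc' (l.map lam) (by simpa using hl2) (by
          intro z hz
          obtain ⟨w, hw, rfl⟩ := List.mem_map.1 hz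
          exact hlam0 w (hlN w (List.mem_cons_of_mem _ hw)))
        have h13 : (l.map fun x => σ0 (lam x) - 1).prod = 0 := by
          have h14 : (l.map fun x => σ0 (lam x) - 1).prod
              = Matrix.toLinAlgEquiv' (((l.map lam).map fun x => (ρ' x).1 - 1).prod) := by
            rw [map_list_prod, List.map_map, List.map_map]
            congr 1
            apply List.map_congr_left
            intro x _
            simp only [Function.comp_apply, map_sub, map_one]
            rw [hσ0]
          rw [h14, h12, map_zero]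
        apply LinearMap.ext
        intro v
        rw [List.map_cons, List.prod_cons, Module.End.mul_apply, h11 l v, h13]
        apply Prod.ext
        · change σ0 (lam x) 0 - 0 = 0
          rw [map_zero, sub_zero]
        · change _ - _ = (0 : ℚ)
          exact sub_self _

end Pool.Agent.CP
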