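import Pool.Agent.Helper98.CP.RDefs
import Pool.Agent.Helper85.CP.OR8

/-!
MP_82cbb9_al, OR-9a: hard-wired data deciding which operators lie in `ρ(G)` on `U/U'`.
-/

set_option autoImplicit false

namespace Pool.Agent.CP

namespace OR9a

open scoped NumberField

section Number

variable {K : Type*} [Field K] [NumberField K]

/-- coordinates of integral elements in an integral basis -/
theorem exists_integral_basis : ∃ (d : ℕ) (ω : Module.Basis (Fin d) ℚ K),
    ∀ x : K, IsIntegral ℤ x ↔ ∀ i, ∃ z : ℤ, ω.repr x i = z := by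
  classical
  let e := Fintype.equivFin (Module.Free.ChooseBasisIndex ℤ (𝓞 K))
  let ω := (NumberField.integralBasis K).reindex e
  refine ⟨_, ω, fun x => ?_⟩
  have h1 : IsIntegral ℤ x ↔ x ∈ (algebraMap (𝓞 K) K).range := by
    constructor
    · intro h
      exact ⟨⟨x, h⟩, rfl⟩
    · rintro ⟨y, rfl⟩
      exact y.2
  rw [h1, ← NumberField.mem_span_integralBasis, Module.Basis.mem_span_iff_repr_mem]
  constructor
  · intro h i
    obtain ⟨z, hz⟩ := h (e.symm i)
    refine ⟨z, ?_⟩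
    rw [Module.Basis.repr_reindex_apply, ← hz]
    simp
  · intro h i
    obtain ⟨z, hz⟩ := h (e i)
    refine ⟨z, ?_⟩
    rw [Module.Basis.repr_reindex_apply, e.symm_apply_apply] at hz
    rw [hz]; simp

/-- `s`-integrality in coordinates -/
theorem s_integral_iff {d : ℕ} (ω : Module.Basis (Fin d) ℚ K)
    (hω : ∀ x : K, IsIntegral ℤ x ↔ ∀ i, ∃ z : ℤ, ω.repr x i = z) (s : ℕ) (x : K) :
    (∃ j : ℕ, IsIntegral ℤ ((s : K) ^ j * x)) ↔
      ∀ i, ∃ (j : ℕ) (z : ℤ), (s : ℚ) ^ j * ω.repr x i = z := by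
  have h1 : ∀ j : ℕ, ∀ i, ω.repr ((s : K) ^ j * x) i = (s : ℚ) ^ j * ω.repr x i := by
    intro j i
    have : (s : K) ^ j * x = ((s : ℚ) ^ j) • x := by
      rw [Algebra.smul_def]; simp
    rw [this, map_smul]; rfl
  constructor
  · rintro ⟨j, hj⟩ i
    obtain ⟨z, hz⟩ := (hω _).1 hj i
    exact ⟨j, z, by rw [← h1, hz]⟩
  · intro h
    choose j z hz using h
    refine ⟨∑ i, j i, (hω _).2 fun i => ?_⟩
    refine ⟨(s : ℤ) ^ (∑ k ∈ Finset.univ.erase i, j k) * z i, ?_⟩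
    rw [h1, ← Finset.add_sum_erase _ _ (Finset.mem_univ i), pow_add]
    push_cast
    rw [← hz i]; ring

theorem isIntegral_pow_mul_of_le {s : ℕ} {x : K} {j j' : ℕ} (h : j ≤ j')
    (hx : IsIntegral ℤ ((s : K) ^ j * x)) : IsIntegral ℤ ((s : K) ^ j' * x) := by
  obtain ⟨k, rfl⟩ := Nat.exists_eq_add_of_le h
  have : (s : K) ^ (j + k) * x = (s : K) ^ k * ((s : K) ^ j * x) := by rw [pow_add]; ring
  rw [this]
  refine IsIntegral.mul (IsIntegral.pow ?_ _) hx
  have : ((s : ℤ) : K) = (s : K) := by simp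
  rw [← this]
  exact isIntegral_algebraMap (R := ℤ) (A := K) (x := (s : ℤ))

/-- elements which are `s`-units -/
def sU (K : Type*) [Field K] [NumberField K] (s : ℕ) : Subgroup Kˣ where
  carrier := {x | (∃ j : ℕ, IsIntegral ℤ ((s : K) ^ j * x)) ∧
    ∃ j : ℕ, IsIntegral ℤ ((s : K) ^ j * (x⁻¹ : Kˣ))}
  one_mem' := ⟨⟨0, by simpa using isIntegral_one⟩, ⟨0, by simpa using isIntegral_one⟩⟩
  mul_mem' := by
    rintro a b ⟨⟨j, hj⟩, ⟨j', hj'⟩⟩ ⟨⟨k, hk⟩, ⟨k', hk'⟩⟩
    refine ⟨⟨j + k, ?_⟩, ⟨j' + k', ?_⟩⟩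
    · have := hj.mul hk
      have e : (s : K) ^ (j + k) * ((a * b : Kˣ) : K) = (s : K) ^ j * a * ((s : K) ^ k * b) := by
        rw [pow_add]; push_cast; ring
      rw [e]; exact this
    · have := hj'.mul hk'
      have e : (s : K) ^ (j' + k') * (((a * b)⁻¹ : Kˣ) : K)
          = (s : K) ^ j' * (a⁻¹ : Kˣ) * ((s : K) ^ k' * (b⁻¹ : Kˣ)) := by
        rw [pow_add, mul_inv]; push_cast; ring
      rw [e]; exact this
  inv_mem' := by
    rintro a ⟨h1, h2⟩
    exact ⟨h2, by simpa using h1⟩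

theorem mem_sU {s : ℕ} {x : Kˣ} : x ∈ sU K s ↔ (∃ j : ℕ, IsIntegral ℤ ((s : K) ^ j * x)) ∧
    ∃ j : ℕ, IsIntegral ℤ ((s : K) ^ j * (x⁻¹ : Kˣ)) := Iff.rfl

theorem exists_den (x : K) : ∃ n : ℕ, 0 < n ∧ IsIntegral ℤ ((n : K) * x) := by
  have hx : IsAlgebraic ℤ x := by
    have : IsAlgebraic ℚ x := Algebra.IsAlgebraic.isAlgebraic x
    exact (IsFractionRing.isAlgebraic_iff ℤ ℚ K).2 this
  obtain ⟨y, hy, h⟩ := hx.exists_integral_multiple
  refine ⟨y.natAbs, Int.natAbs_pos.2 hy, ?_⟩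
  rw [zsmul_eq_mul] at h
  rcases Int.natAbs_eq y with h1 | h1
  · have : ((y.natAbs : ℕ) : K) = (y : K) := by
      conv_rhs => rw [h1]
      simp
    rw [this]; exact h
  · have : ((y.natAbs : ℕ) : K) = -(y : K) := by
      conv_rhs => rw [h1]
      simp
    rw [this, neg_mul]; exact h.neg

theorem exists_s {G : Type*} [Group G] [Group.FG G] (χ : G →* Kˣ) :
    ∃ s : ℕ, 0 < s ∧ ∀ g, χ g ∈ sU K s := by
  classical
  obtain ⟨S, hS⟩ := (Group.fg_def.1 (inferInstance : Group.FG G))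
  choose n hn hn' using fun x : K => exists_den x
  let s : ℕ := ∏ g ∈ S, (n (χ g) * n ((χ g)⁻¹ : Kˣ))
  have hs : 0 < s := Finset.prod_pos fun g _ => Nat.mul_pos (hn _) (hn _)
  refine ⟨s, hs, ?_⟩
  have h1 : (⊤ : Subgroup G) ≤ (sU K s).comap χ := by
    rw [← hS, Subgroup.closure_le]
    intro g hg
    have hdiv : (n (χ g) * n ((χ g)⁻¹ : Kˣ)) ∣ s := Finset.dvd_prod_of_mem _ hg
    obtain ⟨m, hm⟩ := hdiv
    have hnat : ∀ a : ℕ, IsIntegral ℤ (a : K) := by
      intro a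
      have : ((a : ℤ) : K) = (a : K) := by simp
      rw [← this]
      exact isIntegral_algebraMap (R := ℤ) (A := K) (x := (a : ℤ))
    refine ⟨⟨1, ?_⟩, ⟨1, ?_⟩⟩
    · have e : (s : K) ^ 1 * (χ g : K) = ((n ((χ g)⁻¹ : Kˣ) * m : ℕ) : K) * ((n (χ g) : K) * χ g) := by
        rw [hm]; push_cast; ring
      rw [e]; exact (hnat _).mul (hn' _)
    · have e : (s : K) ^ 1 * (((χ g)⁻¹ : Kˣ) : K)
          = ((n (χ g) * m : ℕ) : K) * ((n ((χ g)⁻¹ : Kˣ) : K) * ((χ g)⁻¹ : Kˣ)) := by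
        rw [hm]; push_cast; ring
      rw [e]; exact (hnat _).mul (hn' _)
  intro g
  exact h1 (Subgroup.mem_top g)

/-- the certificate in the field -/
theorem field_data {G : Type*} [Group G] [Group.FG G] (χ : G →* Kˣ)
    (hSU : ∀ s : ℕ, 0 < s → ∃ U : Subgroup Kˣ, U.FG ∧ ∀ x : Kˣ, x ∈ U ↔
      ∃ j : ℕ, IsIntegral ℤ ((s : K) ^ j * x) ∧ IsIntegral ℤ ((s : K) ^ j * (x⁻¹ : Kˣ))) :
    ∃ (s d r : ℕ) (ω : Module.Basis (Fin d) ℚ K) (η : Fin r → Kˣ) (R : AddSubgroup (Fin r → ℤ)),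
      0 < s ∧ ∀ x : K, (¬ ∃ g, x = χ g) ↔
        x = 0 ∨
        (∃ y : Fin d → ℚ, x = ∑ i, y i • ω i ∧ ∃ i, ∀ j : ℕ, ∀ z : ℤ, (s : ℚ) ^ j * y i ≠ z) ∨
        (∃ y : Fin d → ℚ, x * (∑ i, y i • ω i) = 1 ∧
          ∃ i, ∀ j : ℕ, ∀ z : ℤ, (s : ℚ) ^ j * y i ≠ z) ∨
        (∃ e : Fin r → ℤ, e ∉ R ∧ x = ((∏ i, η i ^ e i : Kˣ) : K)) := by
  classical
  obtain ⟨s, hs, hχ⟩ := exists_s χ
  obtain ⟨d, ω, hω⟩ := exists_integral_basis (K := K)
  obtain ⟨U, hU, hU'⟩ := hSU s hs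
  have hUs : U = sU K s := by
    ext x
    rw [hU', mem_sU]
    constructor
    · rintro ⟨j, h1, h2⟩; exact ⟨⟨j, h1⟩, ⟨j, h2⟩⟩
    · rintro ⟨⟨j, h1⟩, ⟨j', h2⟩⟩
      exact ⟨max j j', isIntegral_pow_mul_of_le (le_max_left _ _) h1,
        isIntegral_pow_mul_of_le (le_max_right _ _) h2⟩
  obtain ⟨T, hT⟩ := hU
  let η : Fin T.card → Kˣ := fun i => (T.equivFin.symm i : Kˣ)
  have hη : Subgroup.closure (Set.range η) = sU K s := by
    rw [← hUs, ← hT]
    congr 1
    ext x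
    constructor
    · rintro ⟨i, rfl⟩; exact (T.equivFin.symm i).2
    · intro hx
      exact ⟨T.equivFin ⟨x, hx⟩, by simp [η]⟩
  let P : (Fin T.card → ℤ) → Kˣ := fun e => ∏ i, η i ^ e i
  have hP0 : P 0 = 1 := by simp [P]
  have hPadd : ∀ a b, P (a + b) = P a * P b := by
    intro a b
    simp only [P, Pi.add_apply, zpow_add, Finset.prod_mul_distrib]
  have hPneg : ∀ a, P (-a) = (P a)⁻¹ := by
    intro a
    simp only [P, Pi.neg_apply, zpow_neg, Finset.prod_inv_distrib]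
  let R : AddSubgroup (Fin T.card → ℤ) :=
    { carrier := {e | ∃ g, P e = χ g}
      zero_mem' := ⟨1, by rw [hP0, map_one]⟩
      add_mem' := by
        rintro a b ⟨g, hg⟩ ⟨h, hh⟩
        exact ⟨g * h, by rw [hPadd, hg, hh, map_mul]⟩
      neg_mem' := by
        rintro a ⟨g, hg⟩
        exact ⟨g⁻¹, by rw [hPneg, hg, map_inv]⟩ }
  have hbasis : ∀ (x : K) (y : Fin d → ℚ), x = ∑ i, y i • ω i → ∀ i, ω.repr x i = y i := by
    intro x y hxy i
    rw [hxy]
    exact congrFun (ω.equivFun.symm_apply_eq.1 (by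
      rw [Module.Basis.equivFun_symm_apply])) i |>.symm
  refine ⟨s, d, T.card, ω, η, R, hs, fun x => ?_⟩
  constructor
  · intro hx
    by_cases hx0 : x = 0
    · exact Or.inl hx0
    right
    by_cases h1 : ∃ j : ℕ, IsIntegral ℤ ((s : K) ^ j * x)
    swap
    · left
      rw [s_integral_iff ω hω] at h1
      push Not at h1
      exact ⟨fun i => ω.repr x i, (ω.sum_repr x).symm, h1⟩
    by_cases h2 : ∃ j : ℕ, IsIntegral ℤ ((s : K) ^ j * x⁻¹)
    swap
    · right; left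
      rw [s_integral_iff ω hω] at h2
      push Not at h2
      exact ⟨fun i => ω.repr x⁻¹ i, by rw [ω.sum_repr, mul_inv_cancel₀ hx0], h2⟩
    right; right
    have h3 : Units.mk0 x hx0 ∈ sU K s := by
      refine ⟨by simpa using h1, by simpa using h2⟩
    rw [← hη] at h3
    obtain ⟨e, he⟩ := Subgroup.exists_of_mem_closure_range η _ h3
    refine ⟨e, ?_, ?_⟩
    · rintro ⟨g, hg⟩
      apply hx
      refine ⟨g, ?_⟩
      rw [← hg]
      change x = ((∏ i, η i ^ e i : Kˣ) : K)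
      rw [← he]; rfl
    · rw [← he]; rfl
  · rintro h ⟨g, rfl⟩
    have hg := hχ g
    rcases h with h | ⟨y, hy, i, hi⟩ | ⟨y, hy, i, hi⟩ | ⟨e, he, h⟩
    · exact (χ g).ne_zero h
    · obtain ⟨j, z, hj⟩ := (s_integral_iff ω hω s (χ g : K)).1 hg.1 i
      rw [hbasis _ y hy] at hj
      exact hi j z hj
    · obtain ⟨j, z, hj⟩ := (s_integral_iff ω hω s (((χ g)⁻¹ : Kˣ) : K)).1 hg.2 i
      have hy' : (((χ g)⁻¹ : Kˣ) : K) = ∑ i, y i • ω i := by
        rw [Units.val_inv_eq_inv_val]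
        exact (eq_inv_of_mul_eq_one_right hy).symm
      rw [hbasis _ y hy'] at hj
      exact hi j z hj
    · apply he
      exact ⟨g, (Units.ext h).symm⟩

end Number


section Quot

universe u v

variable {G : Type u} {V : Type v} [Group G] [AddCommGroup V] [Module ℚ V]

/-- the quotient `U/U'` -/
abbrev Qt (S : Stage G V) := S.U ⧸ (S.U'.submoduleOf S.U)

variable (S : Stage G V)

/-- `A` preserves `U` and `U'` -/
def Pres (A : V →ₗ[ℚ] V) : Prop := (∀ v ∈ S.U, A v ∈ S.U) ∧ ∀ v ∈ S.U', A v ∈ S.U'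

/-- `A` preserves `U` and acts on `U/U'` as `F` -/
def Acts (A : V →ₗ[ℚ] V) (F : Module.End ℚ (Qt S)) : Prop :=
  ∀ v : S.U, ∃ h : A v ∈ S.U, F (Submodule.Quotient.mk v) = Submodule.Quotient.mk ⟨A v, h⟩

variable {S}

theorem mk_eq {v w : S.U} : (Submodule.Quotient.mk v : Qt S) = Submodule.Quotient.mk w ↔
    (v : V) - w ∈ S.U' := by
  rw [Submodule.Quotient.eq]
  rfl

theorem Acts.one : Acts S 1 1 := fun v => ⟨v.2, rfl⟩

theorem Acts.zero : Acts S 0 0 := fun v => ⟨S.U.zero_mem, rfl⟩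

theorem Acts.mul {A B : V →ₗ[ℚ] V} {F H : Module.End ℚ (Qt S)} (hA : Acts S A F)
    (hB : Acts S B H) : Acts S (A * B) (F * H) := by
  intro v
  obtain ⟨h1, h2⟩ := hB v
  obtain ⟨h3, h4⟩ := hA ⟨B v, h1⟩
  refine ⟨h3, ?_⟩
  rw [Module.End.mul_apply, h2, h4]; rfl

theorem Acts.add {A B : V →ₗ[ℚ] V} {F H : Module.End ℚ (Qt S)} (hA : Acts S A F)
    (hB : Acts S B H) : Acts S (A + B) (F + H) := by
  intro v
  obtain ⟨h1, h2⟩ := hB v
  obtain ⟨h3, h4⟩ := hA v
  refine ⟨S.U.add_mem h3 h1, ?_⟩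
  rw [LinearMap.add_apply, h2, h4]; rfl

theorem Acts.smul {A : V →ₗ[ℚ] V} {F : Module.End ℚ (Qt S)} (hA : Acts S A F) (q : ℚ) :
    Acts S (q • A) (q • F) := by
  intro v
  obtain ⟨h3, h4⟩ := hA v
  refine ⟨S.U.smul_mem _ h3, ?_⟩
  rw [LinearMap.smul_apply, h4]; rfl

theorem Acts.pow {A : V →ₗ[ℚ] V} {F : Module.End ℚ (Qt S)} (hA : Acts S A F) (n : ℕ) :
    Acts S (A ^ n) (F ^ n) := by
  induction n with
  | zero => simpa using Acts.one
  | succ n ih => rw [pow_succ, pow_succ]; exact ih.mul hA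

theorem Acts.sum {ι : Type*} (s : Finset ι) {A : ι → V →ₗ[ℚ] V} {F : ι → Module.End ℚ (Qt S)}
    (hA : ∀ i, Acts S (A i) (F i)) : Acts S (∑ i ∈ s, A i) (∑ i ∈ s, F i) := by
  classical
  induction s using Finset.induction_on with
  | empty => simpa using Acts.zero
  | insert a s ha ih => rw [Finset.sum_insert ha, Finset.sum_insert ha]; exact (hA a).add ih

theorem Acts.listProd {n : ℕ} {A : Fin n → V →ₗ[ℚ] V} {F : Fin n → Module.End ℚ (Qt S)}
    (hA : ∀ i, Acts S (A i) (F i)) : Acts S (List.ofFn A).prod (List.ofFn F).prod := by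
  induction n with
  | zero => simpa using Acts.one
  | succ n ih =>
    rw [List.ofFn_succ, List.ofFn_succ, List.prod_cons, List.prod_cons]
    exact (hA 0).mul (ih fun i => hA i.succ)

/-- comparison of operators -/
theorem Acts.sub_mem_iff {A B : V →ₗ[ℚ] V} {F H : Module.End ℚ (Qt S)} (hA : Acts S A F)
    (hB : Acts S B H) : (∀ v ∈ S.U, A v - B v ∈ S.U') ↔ F = H := by
  constructor
  · intro h
    apply LinearMap.ext
    intro x
    obtain ⟨v, rfl⟩ := Submodule.Quotient.mk_surjective _ x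
    obtain ⟨h1, h2⟩ := hA v
    obtain ⟨h3, h4⟩ := hB v
    rw [h2, h4, mk_eq]
    exact h v v.2
  · rintro rfl v hv
    obtain ⟨h1, h2⟩ := hA ⟨v, hv⟩
    obtain ⟨h3, h4⟩ := hB ⟨v, hv⟩
    rw [h2] at h4
    exact mk_eq.1 h4

variable (S)

/-- the action of `g` on `U/U'` -/
def rq (g : G) : Module.End ℚ (Qt S) :=
  Submodule.mapQ _ _ ((S.ρ g).restrict (S.invU g)) (by
    intro v hv
    exact S.invU' g v hv)

theorem rq_acts (g : G) : Acts S (S.ρ g) (rq S g) := fun v => ⟨S.invU g v v.2, rfl⟩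

/-- the representation on `U/U'` -/
def rqHom : G →* Module.End ℚ (Qt S) where
  toFun := rq S
  map_one' := by
    refine ((rq_acts S 1).sub_mem_iff Acts.one).1 fun v _ => ?_
    rw [map_one, sub_self]; exact S.U'.zero_mem
  map_mul' a b := by
    refine ((rq_acts S (a * b)).sub_mem_iff ((rq_acts S a).mul (rq_acts S b))).1 fun v _ => ?_
    rw [map_mul, sub_self]; exact S.U'.zero_mem

theorem rq_comm (a b : G) : rq S a * rq S b = rq S b * rq S a := by
  have h1 : rqHom S (a * b * a⁻¹ * b⁻¹) = 1 := by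
    refine ((rq_acts S _).sub_mem_iff Acts.one).1 fun v hv => ?_
    exact S.triv_of_mem_N (S.comm a b) v hv
  have h2 : rqHom S (a * b) = rqHom S (b * a) := by
    have : a * b = a * b * a⁻¹ * b⁻¹ * (b * a) := by group
    rw [this, map_mul, h1, one_mul]
  rw [map_mul, map_mul] at h2
  exact h2

/-- the operator of a list on `U/U'` -/
def opq (l : List (ℚ × G)) : Module.End ℚ (Qt S) := (l.map fun p => p.1 • rq S p.2).sum

theorem op_acts (l : List (ℚ × G)) : Acts S (S.op l) (opq S l) := by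
  induction l with
  | nil => exact Acts.zero
  | cons p l ih =>
    have h1 : S.op (p :: l) = p.1 • S.ρ p.2 + S.op l := by simp [Stage.op]
    have h2 : opq S (p :: l) = p.1 • rq S p.2 + opq S l := by simp [opq]
    rw [h1, h2]
    exact ((rq_acts S p.2).smul p.1).add ih

theorem op_mem_span (l : List (ℚ × G)) : S.op l ∈ Submodule.span ℚ (Set.range S.ρ) := by
  induction l with
  | nil => exact Submodule.zero_mem _
  | cons p l ih =>
    have h1 : S.op (p :: l) = p.1 • S.ρ p.2 + S.op l := by simp [Stage.op]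
    rw [h1]
    exact Submodule.add_mem _ (Submodule.smul_mem _ _ (Submodule.subset_span ⟨_, rfl⟩)) ih

theorem opq_nil : opq S [] = 0 := rfl

theorem opq_cons (p : ℚ × G) (l : List (ℚ × G)) :
    opq S (p :: l) = p.1 • rq S p.2 + opq S l := by simp [opq]

theorem opq_append (l l' : List (ℚ × G)) : opq S (l ++ l') = opq S l + opq S l' := by
  simp [opq]

theorem rq_mul (a b : G) : rq S (a * b) = rq S a * rq S b := map_mul (rqHom S) a b

theorem rq_one : rq S 1 = 1 := map_one (rqHom S)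

theorem opq_smul_mul (q : ℚ) (g : G) (l : List (ℚ × G)) :
    (q • rq S g) * opq S l = opq S (l.map fun p => (q * p.1, g * p.2)) := by
  induction l with
  | nil => simp [opq_nil]
  | cons p l ih =>
    rw [List.map_cons, opq_cons, opq_cons, mul_add, ih, rq_mul]
    congr 1
    rw [smul_mul_smul_comm]

theorem opq_mul (l l' : List (ℚ × G)) : ∃ l'' : List (ℚ × G), opq S l * opq S l' = opq S l'' := by
  induction l with
  | nil => exact ⟨[], by simp [opq_nil]⟩
  | cons p l ih =>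
    obtain ⟨l'', h⟩ := ih
    refine ⟨(l'.map fun r => (p.1 * r.1, p.2 * r.2)) ++ l'', ?_⟩
    rw [opq_append, ← h, opq_cons, add_mul, opq_smul_mul]

theorem mem_adjoin_iff (x : Module.End ℚ (Qt S)) :
    x ∈ Algebra.adjoin ℚ (Set.range (rq S)) ↔ ∃ l : List (ℚ × G), x = opq S l := by
  constructor
  · intro hx
    induction hx using Algebra.adjoin_induction with
    | mem x hx =>
      obtain ⟨g, rfl⟩ := hx
      exact ⟨[(1, g)], by simp [opq]⟩
    | algebraMap r =>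
      refine ⟨[(r, 1)], ?_⟩
      rw [opq_cons, opq_nil, rq_one, add_zero, Algebra.algebraMap_eq_smul_one]
    | add x y _ _ hx hy =>
      obtain ⟨l, rfl⟩ := hx
      obtain ⟨l', rfl⟩ := hy
      exact ⟨l ++ l', (opq_append S l l').symm⟩
    | mul x y _ _ hx hy =>
      obtain ⟨l, rfl⟩ := hx
      obtain ⟨l', rfl⟩ := hy
      exact opq_mul S l l'
  · rintro ⟨l, rfl⟩
    induction l with
    | nil => exact Subalgebra.zero_mem _
    | cons p l ih =>
      rw [opq_cons]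
      exact Subalgebra.add_mem _ (Subalgebra.smul_mem _ (Algebra.subset_adjoin (Set.mem_range_self _)) _) ih

theorem opq_schur (l : List (ℚ × G)) : opq S l = 0 ∨ Function.Injective (opq S l) := by
  rcases S.schur _ (op_mem_span S l) with h | h
  · left
    refine ((op_acts S l).sub_mem_iff Acts.zero).1 fun v hv => ?_
    rw [LinearMap.zero_apply, sub_zero]
    exact h v hv
  · right
    rw [injective_iff_map_eq_zero]
    intro x hx
    obtain ⟨v, rfl⟩ := Submodule.Quotient.mk_surjective _ x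
    obtain ⟨h1, h2⟩ := op_acts S l v
    rw [h2, Submodule.Quotient.mk_eq_zero] at hx
    rw [Submodule.Quotient.mk_eq_zero]
    exact h v v.2 hx

theorem nontriv (hU : S.U' ≠ S.U) : Nontrivial (Qt S) := by
  have h1 : ¬ S.U ≤ S.U' := fun h => hU (le_antisymm S.U'_le h)
  obtain ⟨v, hv, hv'⟩ := SetLike.not_le_iff_exists.1 h1
  refine ⟨Submodule.Quotient.mk ⟨v, hv⟩, 0, ?_⟩
  intro h
  rw [Submodule.Quotient.mk_eq_zero] at h
  exact hv' h

/-- the field of operators on `U/U'` -/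
theorem exists_field [FiniteDimensional ℚ V] (hU : S.U' ≠ S.U) :
    ∃ (K : Type v) (_ : Field K) (_ : NumberField K) (Φ : K →+* Module.End ℚ (Qt S))
      (χ : G →* Kˣ), (∀ g, Φ (χ g) = rq S g) ∧ Function.Injective Φ ∧
      (∀ x, ∃ l : List (ℚ × G), Φ x = opq S l) ∧ ∀ l : List (ℚ × G), ∃ x, Φ x = opq S l := by
  classical
  have hnt := nontriv S hU
  have hcomm : ∀ a ∈ Set.range (rq S), ∀ b ∈ Set.range (rq S), a * b = b * a := by
    rintro _ ⟨a, rfl⟩ _ ⟨b, rfl⟩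
    exact rq_comm S a b
  let E := Algebra.adjoin ℚ (Set.range (rq S))
  letI : CommRing E := Algebra.adjoinCommRingOfComm ℚ hcomm
  have hne : (1 : E) ≠ 0 := by
    intro h
    have h1 : ((1 : E) : Module.End ℚ (Qt S)) = ((0 : E) : Module.End ℚ (Qt S)) := by rw [h]
    have h2 : (1 : Module.End ℚ (Qt S)) = 0 := h1
    exact one_ne_zero h2
  haveI : Nontrivial E := ⟨1, 0, hne⟩
  haveI : NoZeroDivisors E := by
    refine ⟨fun {x y} hxy => ?_⟩
    obtain ⟨l, hl⟩ := (mem_adjoin_iff S x.1).1 x.2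
    rcases opq_schur S l with h | h
    · left
      apply Subtype.ext
      rw [hl, h]; rfl
    · right
      apply Subtype.ext
      apply LinearMap.ext
      intro w
      apply h
      have h1 : (x.1 * y.1) w = 0 := by
        have : x.1 * y.1 = 0 := congrArg Subtype.val hxy
        rw [this]; rfl
      rw [← hl]
      change x.1 (y.1 w) = x.1 0
      rw [map_zero]; exact h1
  haveI : IsDomain E := NoZeroDivisors.to_isDomain E
  haveI hfd : FiniteDimensional ℚ E := inferInstance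
  letI : Field E := fieldOfFiniteDimensional ℚ E
  haveI : CharZero E := algebraRat.charZero E
  haveI : NumberField E :=
    { to_charZero := inferInstance
      to_finiteDimensional := by
        convert hfd
        exact Subsingleton.elim _ _ }
  let Φ : E →+* Module.End ℚ (Qt S) :=
    { toFun := fun x => x.1
      map_one' := rfl
      map_mul' := fun _ _ => rfl
      map_zero' := rfl
      map_add' := fun _ _ => rfl }
  let χ0 : G →* E :=
    { toFun := fun g => ⟨rq S g, Algebra.subset_adjoin ⟨g, rfl⟩⟩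
      map_one' := Subtype.ext (rq_one S)
      map_mul' := fun a b => Subtype.ext (rq_mul S a b) }
  refine ⟨E, inferInstance, inferInstance, Φ, MonoidHom.toHomUnits χ0, fun g => rfl,
    fun a b h => Subtype.ext h, fun x => ?_, fun l => ?_⟩
  · exact (mem_adjoin_iff S x.1).1 x.2
  · exact ⟨⟨opq S l, (mem_adjoin_iff S _).2 ⟨l, rfl⟩⟩, rfl⟩


theorem mult_data_core [Group.FG G] [FiniteDimensional ℚ V] (hU : S.U' ≠ S.U)
    (hSU : ∀ (K : Type v) [Field K] [NumberField K] (s : ℕ), 0 < s →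
      ∃ U : Subgroup Kˣ, U.FG ∧ ∀ x : Kˣ, x ∈ U ↔
      ∃ j : ℕ, IsIntegral ℤ ((s : K) ^ j * x) ∧ IsIntegral ℤ ((s : K) ^ j * (x⁻¹ : Kˣ))) :
    ∃ (s d r : ℕ) (ω : Fin d → List (ℚ × G)) (η η' : Fin r → List (ℚ × G))
      (R : AddSubgroup (Fin r → ℤ)), 0 < s ∧
      (∀ i, ∀ v ∈ S.U, S.op (η i) (S.op (η' i) v) - v ∈ S.U') ∧
      ∀ l : List (ℚ × G), (¬ ∃ g : G, ∀ v ∈ S.U, S.op l v - S.ρ g v ∈ S.U') ↔
        (∀ v ∈ S.U, S.op l v ∈ S.U') ∨
        (∃ y : Fin d → ℚ, (∀ v ∈ S.U, S.op l v - ∑ i, y i • S.op (ω i) v ∈ S.U') ∧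
          ∃ i, ∀ j : ℕ, ∀ z : ℤ, (s : ℚ) ^ j * y i ≠ z) ∨
        (∃ y : Fin d → ℚ, (∀ v ∈ S.U, S.op l (∑ i, y i • S.op (ω i) v) - v ∈ S.U') ∧
          ∃ i, ∀ j : ℕ, ∀ z : ℤ, (s : ℚ) ^ j * y i ≠ z) ∨
        (∃ e : Fin r → ℤ, e ∉ R ∧ ∀ v ∈ S.U, S.op l v -
          ((List.ofFn fun i => if 0 ≤ e i then (S.op (η i)) ^ (e i).toNat
            else (S.op (η' i)) ^ (-(e i)).toNat).prod : V →ₗ[ℚ] V) v ∈ S.U') := by
  classical
  obtain ⟨K, hK, hNF, Φ, χ, hχ, hinj, hsurj, hsurj'⟩ := exists_field S hU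
  obtain ⟨s, d, r, ω, η, R, hs, key⟩ := field_data χ (hSU K)
  choose lw hlw using fun i => hsurj (ω i)
  choose lη hlη using fun i => hsurj (η i : K)
  choose lη' hlη' using fun i => hsurj ((η i)⁻¹ : Kˣ)
  -- actions
  have aη : ∀ i, Acts S (S.op (lη i)) (Φ (η i)) := fun i => by
    rw [hlη]; exact op_acts S _
  have aη' : ∀ i, Acts S (S.op (lη' i)) (Φ ((η i)⁻¹ : Kˣ)) := fun i => by
    rw [hlη']; exact op_acts S _
  have aω : ∀ y : Fin d → ℚ, Acts S (∑ i, y i • S.op (lw i)) (Φ (∑ i, y i • ω i)) := by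
    intro y
    have : Φ (∑ i, y i • ω i) = ∑ i, y i • opq S (lw i) := by
      rw [map_sum]
      refine Finset.sum_congr rfl fun i _ => ?_
      rw [map_rat_smul, hlw]
    rw [this]
    exact Acts.sum _ fun i => (op_acts S _).smul _
  have hsum : ∀ (y : Fin d → ℚ) (v : V),
      (∑ i, y i • S.op (lw i)) v = ∑ i, y i • S.op (lw i) v := by
    intro y v
    simp [LinearMap.sum_apply]
  have aprod : ∀ e : Fin r → ℤ, Acts S
      ((List.ofFn fun i => if 0 ≤ e i then (S.op (lη i)) ^ (e i).toNat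
            else (S.op (lη' i)) ^ (-(e i)).toNat).prod : V →ₗ[ℚ] V)
      (Φ ((∏ i, η i ^ e i : Kˣ) : K)) := by
    intro e
    have h1 : ∀ i, Acts S (if 0 ≤ e i then (S.op (lη i)) ^ (e i).toNat
            else (S.op (lη' i)) ^ (-(e i)).toNat) (Φ ((η i ^ e i : Kˣ) : K)) := by
      intro i
      split_ifs with h
      · have h2 : η i ^ e i = η i ^ (e i).toNat := by
          conv_lhs => rw [← Int.toNat_of_nonneg h]
          rw [zpow_natCast]
        rw [h2, Units.val_pow_eq_pow_val, map_pow]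
        exact (aη i).pow _
      · have h2 : η i ^ e i = (η i)⁻¹ ^ (-(e i)).toNat := by
          have h3 : 0 ≤ -(e i) := by omega
          have h4 : e i = -((-(e i)).toNat : ℤ) := by rw [Int.toNat_of_nonneg h3]; ring
          conv_lhs => rw [h4]
          rw [zpow_neg, zpow_natCast, inv_pow]
        rw [h2, Units.val_pow_eq_pow_val, map_pow]
        exact (aη' i).pow _
    have h2 := Acts.listProd h1
    have h3 : (List.ofFn fun i => Φ ((η i ^ e i : Kˣ) : K)).prod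
        = Φ ((∏ i, η i ^ e i : Kˣ) : K) := by
      rw [← List.prod_ofFn]
      have : ((List.ofFn fun i => η i ^ e i).prod : Kˣ)
          = (List.ofFn fun i => η i ^ e i).prod := rfl
      have h4 : (((List.ofFn fun i => η i ^ e i).prod : Kˣ) : K)
          = ((List.ofFn fun i => ((η i ^ e i : Kˣ) : K)).prod) := by
        have := map_list_prod (Units.coeHom K) (List.ofFn fun i => η i ^ e i)
        rw [List.map_ofFn] at this
        exact this
      rw [h4, map_list_prod, List.map_ofFn]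
      rfl
    rw [h3] at h2
    exact h2
  refine ⟨s, d, r, lw, lη, lη', R, hs, ?_, ?_⟩
  · intro i
    refine (((aη i).mul (aη' i)).sub_mem_iff Acts.one).2 ?_
    rw [← map_mul, ← Units.val_mul, mul_inv_cancel, Units.val_one, map_one]
  · intro l
    obtain ⟨x, hx⟩ := hsurj' l
    have al : Acts S (S.op l) (Φ x) := by rw [hx]; exact op_acts S l
    have e1 : (∃ g : G, ∀ v ∈ S.U, S.op l v - S.ρ g v ∈ S.U') ↔ ∃ g, x = χ g := by
      refine exists_congr fun g => ?_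
      rw [al.sub_mem_iff (rq_acts S g), ← hχ g]
      exact hinj.eq_iff
    have e2 : (∀ v ∈ S.U, S.op l v ∈ S.U') ↔ x = 0 := by
      have h1 := al.sub_mem_iff (Acts.zero (S := S))
      rw [← map_zero Φ, hinj.eq_iff] at h1
      rw [← h1]
      simp
    have e3 : ∀ y : Fin d → ℚ, (∀ v ∈ S.U, S.op l v - ∑ i, y i • S.op (lw i) v ∈ S.U') ↔
        x = ∑ i, y i • ω i := by
      intro y
      have h1 := al.sub_mem_iff (aω y)
      rw [hinj.eq_iff] at h1
      rw [← h1]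
      simp only [hsum]
    have e4 : ∀ y : Fin d → ℚ, (∀ v ∈ S.U, S.op l (∑ i, y i • S.op (lw i) v) - v ∈ S.U') ↔
        x * (∑ i, y i • ω i) = 1 := by
      intro y
      have h1 := (al.mul (aω y)).sub_mem_iff (Acts.one (S := S))
      rw [← map_mul, ← map_one Φ, hinj.eq_iff] at h1
      rw [← h1]
      simp only [Module.End.mul_apply, hsum, Module.End.one_apply]
    have e5 : ∀ e : Fin r → ℤ, (∀ v ∈ S.U, S.op l v -
          ((List.ofFn fun i => if 0 ≤ e i then (S.op (lη i)) ^ (e i).toNat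
            else (S.op (lη' i)) ^ (-(e i)).toNat).prod : V →ₗ[ℚ] V) v ∈ S.U') ↔
        x = ((∏ i, η i ^ e i : Kˣ) : K) := by
      intro e
      rw [al.sub_mem_iff (aprod e), hinj.eq_iff]
    rw [e1, key x, e2]
    simp only [e3, e4, e5]

end Quot

end OR9a

/-- `ω` = a `ℤ`-basis of the integers of the field of operators on `U/U'`, `η` = generators of the
`s`-units, `R` = exponents of the elements of `ρ(G)`. -/
theorem mult_data {G V : Type*} [Group G] [Group.FG G] [AddCommGroup V] [Module ℚ V]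
    [FiniteDimensional ℚ V] (S : Stage G V) (hU : S.U' ≠ S.U) :
    ∃ (s d r : ℕ) (ω : Fin d → List (ℚ × G)) (η η' : Fin r → List (ℚ × G))
      (R : AddSubgroup (Fin r → ℤ)), 0 < s ∧
      (∀ i, ∀ v ∈ S.U, S.op (η i) (S.op (η' i) v) - v ∈ S.U') ∧
      ∀ l : List (ℚ × G), (¬ ∃ g : G, ∀ v ∈ S.U, S.op l v - S.ρ g v ∈ S.U') ↔
        (∀ v ∈ S.U, S.op l v ∈ S.U') ∨
        (∃ y : Fin d → ℚ, (∀ v ∈ S.U, S.op l v - ∑ i, y i • S.op (ω i) v ∈ S.U') ∧
          ∃ i, ∀ j : ℕ, ∀ z : ℤ, (s : ℚ) ^ j * y i ≠ z) ∨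
        (∃ y : Fin d → ℚ, (∀ v ∈ S.U, S.op l (∑ i, y i • S.op (ω i) v) - v ∈ S.U') ∧
          ∃ i, ∀ j : ℕ, ∀ z : ℤ, (s : ℚ) ^ j * y i ≠ z) ∨
        (∃ e : Fin r → ℤ, e ∉ R ∧ ∀ v ∈ S.U, S.op l v -
          ((List.ofFn fun i => if 0 ≤ e i then (S.op (η i)) ^ (e i).toNat
            else (S.op (η' i)) ^ (-(e i)).toNat).prod : V →ₗ[ℚ] V) v ∈ S.U') :=
  OR9a.mult_data_core S hU (fun K _ _ s hs => s_units_fg K s hs)

end Pool.Agent.CP
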